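import Pool.Agent.Helper12.XG.St2

/-! Project XG (MP_627c93_nt, owner helper12), module NU5: the numerical inequality of the last step. -/

set_option autoImplicit false

namespace Pool.Agent.Helper7.XG

open Finset Polynomial Pool.Agent.Helper12.XG Pool.Agent.Helper14.GS

private lemma small_pow {q : ℕ} (hq : 2 ≤ q) : (1 / 256 : ℝ) ^ q ≤ (1 / 64 : ℝ) ^ q / 4 := by
  have h1 : (1 / 256 : ℝ) ^ q = (1 / 64 : ℝ) ^ q * (1 / 4 : ℝ) ^ q := by
    rw [← mul_pow]; norm_num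
  have h2 : (1 / 4 : ℝ) ^ q ≤ (1 / 4 : ℝ) ^ 1 :=
    pow_le_pow_of_le_one (by norm_num) (by norm_num) (by omega)
  rw [h1, div_eq_mul_one_div]
  exact mul_le_mul_of_nonneg_left (by simpa using h2) (by positivity)

private lemma exp_neg_six {q : ℕ} : Real.exp (-(6 * (q : ℝ))) ≤ (1 / 256 : ℝ) ^ q := by
  have h1 : Real.exp (-(6 * (q : ℝ))) = (Real.exp (-6)) ^ q := by
    rw [← Real.exp_nat_mul]; congr 1; ring
  rw [h1]
  refine pow_le_pow_left₀ (Real.exp_pos _).le ?_ q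
  rw [Real.exp_neg, ← one_div]
  refine one_div_le_one_div_of_le (by norm_num) ?_
  have h2 : Real.exp 6 = (Real.exp 1) ^ 6 := by
    rw [← Real.exp_nat_mul]; norm_num
  rw [h2]
  calc (256 : ℝ) ≤ 2.7 ^ 6 := by norm_num
    _ ≤ (Real.exp 1) ^ 6 :=
        pow_le_pow_left₀ (by norm_num) (by linarith [Real.exp_one_gt_d9]) 6

private lemma term2 {E q e D : ℕ} (hE : 1200 ≤ E) (hq : 2 ≤ q) (he : e + 19 * q ≤ 2 * D)
    (hD : q ≤ D) :
    ((E : ℝ) ^ 2 + 1) * q * BdR E q * (((E : ℝ) ^ 2 + 2) ^ e / ((E ^ 7 : ℕ) : ℝ) ^ D)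
      ≤ (1 / 64 : ℝ) ^ q / 4 := by
  have hE' : (1200 : ℝ) ≤ E := by exact_mod_cast hE
  have hE0 : (0 : ℝ) < E := by linarith
  set B : ℝ := (E : ℝ) ^ 2 + 2 with hB
  have hB1 : 1 ≤ B := by rw [hB]; nlinarith
  have hB0 : 0 < B := by linarith
  have h1 : ((E : ℝ) ^ 2 + 1) * q * BdR E q ≤ B ^ (19 * q) := by
    have a1 : (E : ℝ) ^ 2 + 1 ≤ B ^ q := by
      calc (E : ℝ) ^ 2 + 1 ≤ B ^ 1 := by rw [pow_one, hB]; linarith
        _ ≤ B ^ q := pow_le_pow_right₀ hB1 (by omega)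
    have a2 : (q : ℝ) ≤ B ^ q := by
      calc (q : ℝ) ≤ (2 : ℝ) ^ q := by exact_mod_cast (Nat.lt_two_pow_self (n := q)).le
        _ ≤ B ^ q := pow_le_pow_left₀ (by norm_num) (by rw [hB]; nlinarith) q
    have a3 : BdR E q ≤ (B ^ 4) ^ q := by
      unfold BdR
      refine pow_le_pow_left₀ (by positivity) ?_ q
      have b1 : ((E : ℝ) ^ 2 + 1) ^ 3 ≤ B ^ 3 :=
        pow_le_pow_left₀ (by positivity) (by rw [hB]; linarith) 3
      have b2 : (2 : ℝ) ≤ B := by rw [hB]; nlinarith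
      calc 2 * ((E : ℝ) ^ 2 + 1) ^ 3 ≤ B * B ^ 3 :=
            mul_le_mul b2 b1 (by positivity) (by positivity)
        _ = B ^ 4 := by ring
    have a4 : (0 : ℝ) ≤ BdR E q := by unfold BdR; positivity
    calc ((E : ℝ) ^ 2 + 1) * q * BdR E q ≤ B ^ q * B ^ q * (B ^ 4) ^ q := by
          refine mul_le_mul (mul_le_mul a1 a2 (by positivity) (by positivity)) a3 a4
            (by positivity)
      _ = B ^ (6 * q) := by rw [← pow_mul, ← pow_add, ← pow_add]; congr 1; ring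
      _ ≤ B ^ (19 * q) := pow_le_pow_right₀ hB1 (by omega)
  have h2 : B ^ 2 ≤ (E : ℝ) ^ 5 := by
    have c1 : B ≤ 2 * (E : ℝ) ^ 2 := by rw [hB]; nlinarith
    calc B ^ 2 ≤ (2 * (E : ℝ) ^ 2) ^ 2 := pow_le_pow_left₀ hB0.le c1 2
      _ = 4 * (E : ℝ) ^ 4 := by ring
      _ ≤ (E : ℝ) * (E : ℝ) ^ 4 :=
          mul_le_mul_of_nonneg_right (by linarith) (by positivity)
      _ = (E : ℝ) ^ 5 := by ring
  have h3 : B ^ (19 * q) * B ^ e ≤ ((E : ℝ) ^ 5) ^ D := by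
    calc B ^ (19 * q) * B ^ e = B ^ (19 * q + e) := by rw [← pow_add]
      _ ≤ B ^ (2 * D) := pow_le_pow_right₀ hB1 (by omega)
      _ = (B ^ 2) ^ D := by rw [pow_mul]
      _ ≤ ((E : ℝ) ^ 5) ^ D := pow_le_pow_left₀ (by positivity) h2 D
  have h4 : ((E ^ 7 : ℕ) : ℝ) ^ D = ((E : ℝ) ^ 5) ^ D * ((E : ℝ) ^ 2) ^ D := by
    rw [← mul_pow]; push_cast; congr 1; ring
  have h5 : (256 : ℝ) ^ q ≤ ((E : ℝ) ^ 2) ^ D := by
    have d1 : (256 : ℝ) ≤ (E : ℝ) ^ 2 := by nlinarith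
    calc (256 : ℝ) ^ q ≤ ((E : ℝ) ^ 2) ^ q := pow_le_pow_left₀ (by norm_num) d1 q
      _ ≤ ((E : ℝ) ^ 2) ^ D := pow_le_pow_right₀ (by linarith) hD
  have h6 : ((E : ℝ) ^ 2 + 1) * q * BdR E q * (B ^ e / ((E ^ 7 : ℕ) : ℝ) ^ D)
      ≤ 1 / ((E : ℝ) ^ 2) ^ D := by
    rw [← mul_div_assoc, h4, div_le_div_iff₀ (by positivity) (by positivity), one_mul]
    refine mul_le_mul_of_nonneg_right ?_ (by positivity)
    exact (mul_le_mul_of_nonneg_right h1 (by positivity)).trans h3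
  refine h6.trans (le_trans ?_ (small_pow hq))
  rw [one_div_pow]
  exact one_div_le_one_div_of_le (by positivity) h5

private lemma term1 {E G Λ q e Q : ℕ} {t : ℝ} (hE : 1200 ≤ E) (hG : 20 ≤ G) (hΛE : Λ ≤ E)
    (hQ : Q = E * G + 20) (hq : 2 ≤ q) (ht : 1 ≤ t)
    (fin : 2000 * (G : ℝ) * (Real.log E + 1) ≤ Λ)
    (hlt : (E : ℝ) * Λ * ((q : ℝ) - 1) / 8 ≤ Real.log t) (he : e ≤ 3 * (Q * q)) :
    (Q : ℝ) * (q + 1) * 8 ^ (q + 1) * (((E ^ 7 : ℕ) : ℝ) + (Q : ℝ) + 1) ^ e * (1 / t)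
      ≤ (1 / 64 : ℝ) ^ q / 4 := by
  have hE' : (1200 : ℝ) ≤ E := by exact_mod_cast hE
  have hE0 : (0 : ℝ) < E := by linarith
  have hG' : (20 : ℝ) ≤ G := by exact_mod_cast hG
  have hq' : (2 : ℝ) ≤ q := by exact_mod_cast hq
  have ht0 : (0 : ℝ) < t := by linarith
  set L : ℝ := Real.log E with hL
  have hL0 : 0 ≤ L := Real.log_nonneg (by linarith)
  have hGΛ : (G : ℝ) ≤ Λ := by nlinarith
  have hGE : (G : ℝ) ≤ E := hGΛ.trans (by exact_mod_cast hΛE)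
  have hQr : (Q : ℝ) = E * G + 20 := by rw [hQ]; push_cast; ring
  have hQ2 : (Q : ℝ) ≤ 2 * (E * G) := by rw [hQr]; nlinarith
  have hQ20 : (20 : ℝ) ≤ Q := by rw [hQr]; nlinarith
  have hQmul : (20 : ℝ) * q ≤ Q * q := mul_le_mul_of_nonneg_right hQ20 (by linarith)
  -- the logarithm of `t`
  have hlog : 62 * (Q : ℝ) * q * (L + 1) ≤ Real.log t := by
    refine le_trans ?_ hlt
    have e1 : (E : ℝ) * (2000 * (G : ℝ) * (L + 1)) ≤ E * Λ :=
      mul_le_mul_of_nonneg_left fin hE0.le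
    have e2 : (q : ℝ) / 2 ≤ (q : ℝ) - 1 := by linarith
    have e3 : (0 : ℝ) ≤ E * Λ := by positivity
    have e4 : (E : ℝ) * Λ * ((q : ℝ) / 2) ≤ E * Λ * ((q : ℝ) - 1) :=
      mul_le_mul_of_nonneg_left e2 e3
    have e5 : (E : ℝ) * (2000 * (G : ℝ) * (L + 1)) * ((q : ℝ) / 2) ≤ E * Λ * ((q : ℝ) / 2) :=
      mul_le_mul_of_nonneg_right e1 (by linarith)
    have e6 : (Q : ℝ) * (q * (L + 1)) ≤ 2 * (E * G) * (q * (L + 1)) :=
      mul_le_mul_of_nonneg_right hQ2 (by positivity)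
    have e7 : (0 : ℝ) ≤ Q * (q * (L + 1)) := by positivity
    nlinarith
  -- the factors
  have f1 : (Q : ℝ) * (q + 1) ≤ Real.exp (2 * (Q * q)) := by
    have g1 := Real.add_one_le_exp ((Q : ℝ) * (q + 1))
    have g2 : (Q : ℝ) * (q + 1) ≤ 2 * (Q * q) := by nlinarith
    exact (by linarith : (Q : ℝ) * (q + 1) ≤ Real.exp ((Q : ℝ) * (q + 1))).trans
      (Real.exp_le_exp.2 g2)
  have f2 : (8 : ℝ) ^ (q + 1) ≤ Real.exp (Q * q) := by
    have g1 : (8 : ℝ) ≤ Real.exp 3 := by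
      have h2 : Real.exp 3 = (Real.exp 1) ^ 3 := by
        rw [← Real.exp_nat_mul]; norm_num
      rw [h2]
      calc (8 : ℝ) ≤ 2.7 ^ 3 := by norm_num
        _ ≤ (Real.exp 1) ^ 3 :=
            pow_le_pow_left₀ (by norm_num) (by linarith [Real.exp_one_gt_d9]) 3
    calc (8 : ℝ) ^ (q + 1) ≤ (Real.exp 3) ^ (q + 1) := pow_le_pow_left₀ (by norm_num) g1 _
      _ = Real.exp (((q + 1 : ℕ) : ℝ) * 3) := by rw [← Real.exp_nat_mul]
      _ ≤ Real.exp (Q * q) := Real.exp_le_exp.2 (by push_cast; linarith)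
  have f3 : (((E ^ 7 : ℕ) : ℝ) + (Q : ℝ) + 1) ^ e ≤ Real.exp (24 * (Q * q) * L) := by
    have g1 : ((E ^ 7 : ℕ) : ℝ) + (Q : ℝ) + 1 ≤ (E : ℝ) ^ 8 := by
      push_cast
      have k1 : (Q : ℝ) + 1 ≤ (E : ℝ) ^ 7 := by
        have k2 : (Q : ℝ) ≤ (E : ℝ) ^ 2 + 20 := by rw [hQr]; nlinarith
        have k3 : (1 : ℝ) ≤ (E : ℝ) ^ 4 := one_le_pow₀ (by linarith)
        have k4 : (E : ℝ) ^ 2 + 21 ≤ (E : ℝ) ^ 3 := by nlinarith [sq_nonneg (E : ℝ)]
        have k5 : (E : ℝ) ^ 3 ≤ (E : ℝ) ^ 7 := pow_le_pow_right₀ (by linarith) (by norm_num)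
        linarith
      have k6 : (E : ℝ) ^ 8 = E * (E : ℝ) ^ 7 := by ring
      have k7 : (0 : ℝ) ≤ (E : ℝ) ^ 7 := by positivity
      rw [k6]
      nlinarith
    have g2 : (1 : ℝ) ≤ (E : ℝ) ^ 8 := one_le_pow₀ (by linarith)
    calc (((E ^ 7 : ℕ) : ℝ) + (Q : ℝ) + 1) ^ e ≤ ((E : ℝ) ^ 8) ^ e :=
          pow_le_pow_left₀ (by positivity) g1 e
      _ ≤ ((E : ℝ) ^ 8) ^ (3 * (Q * q)) := pow_le_pow_right₀ g2 he
      _ = (E : ℝ) ^ (24 * (Q * q)) := by rw [← pow_mul]; congr 1; ring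
      _ = (Real.exp L) ^ (24 * (Q * q)) := by rw [hL, Real.exp_log hE0]
      _ = Real.exp (24 * (Q * q) * L) := by
          rw [← Real.exp_nat_mul]; congr 1; push_cast; ring
  have f4 : 1 / t = Real.exp (-Real.log t) := by rw [Real.exp_neg, Real.exp_log ht0, one_div]
  refine le_trans ?_ (exp_neg_six.trans (small_pow hq))
  calc (Q : ℝ) * (q + 1) * 8 ^ (q + 1) * (((E ^ 7 : ℕ) : ℝ) + (Q : ℝ) + 1) ^ e * (1 / t)
      ≤ Real.exp (2 * (Q * q)) * Real.exp (Q * q) * Real.exp (24 * (Q * q) * L)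
          * Real.exp (-Real.log t) := by
        rw [f4]
        refine mul_le_mul_of_nonneg_right ?_ (Real.exp_pos _).le
        refine mul_le_mul (mul_le_mul f1 f2 (by positivity) (Real.exp_pos _).le) f3
          (by positivity) (by positivity)
    _ = Real.exp (2 * (Q * q) + Q * q + 24 * (Q * q) * L + -Real.log t) := by
        rw [Real.exp_add, Real.exp_add, Real.exp_add]
    _ ≤ Real.exp (-(6 * (q : ℝ))) := by
        refine Real.exp_le_exp.2 ?_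
        have g1 : (0 : ℝ) ≤ Q * q * L := by positivity
        nlinarith

theorem hNU5 : Pool.Agent.Helper12.XG.StNU5 := by
  intro r C y Λ E G q M t hP hq ht hlt hM
  have hΛE : Λ ≤ E := by
    rw [hP.hE]
    exact Nat.le_self_pow (by omega) Λ
  have hE : 1200 ≤ E := hP.hΛ.trans hΛE
  set Q : ℕ := E * G + 20 with hQ
  have hM' : M + 19 * q ≤ Q * q := by
    have h1 : (E * G + 1) * q + 19 * q = Q * q := by rw [hQ]; ring
    omega
  have hexp : Q * (q + 1) = Q * q + Q := by ring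
  have hQmul : Q ≤ Q * q := Nat.le_mul_of_pos_right Q (by omega)
  have h1 := term1 (e := M + Q * (q + 1)) hE hP.hG20 hΛE hQ hq ht hP.fin hlt (by omega)
  have hqQ : q ≤ Q * (q + 1) := by
    have h2 : 1 * q ≤ Q * q := Nat.mul_le_mul_right q (by omega)
    omega
  have h2 := term2 (e := M + Q * (q + 1)) (D := Q * (q + 1)) hE hq (by omega) hqQ
  have h3 : (0 : ℝ) < (1 / 64 : ℝ) ^ q := by positivity
  calc _ ≤ (1 / 64 : ℝ) ^ q / 4 + (1 / 64 : ℝ) ^ q / 4 := add_le_add h1 h2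
    _ < (1 / 64 : ℝ) ^ q := by linarith

end Pool.Agent.Helper7.XG
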