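import Pool.Agent.Helper12.XG.St

/-! Project XG (MP_627c93_nt, owner helper12), module PFE: existence of the pole expansion. -/

set_option autoImplicit false

namespace Pool.Agent.Helper7.XG

open Finset Polynomial Pool.Agent.Helper12.XG Pool.Agent.Helper14.GS

private lemma DP_monic (n : ℕ) (a : ℕ → ℝ) (m : ℕ → ℕ) : (DP n a m).Monic := by
  unfold DP
  exact monic_prod_of_monic _ _ fun k _ => (monic_X_sub_C _).pow _

private lemma natDegree_DP (n : ℕ) (a : ℕ → ℝ) (m : ℕ → ℕ) :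
    (DP n a m).natDegree = ∑ k ∈ range n, m k := by
  unfold DP
  rw [natDegree_prod_of_monic _ _ fun k _ => (monic_X_sub_C _).pow _]
  refine sum_congr rfl fun k _ => ?_
  rw [(monic_X_sub_C _).natDegree_pow, natDegree_X_sub_C, mul_one]

theorem hPFE : Pool.Agent.Helper12.XG.StPFE := by
  intro n a m A ha
  classical
  have hg : ∀ i ∈ range n, (X - C ((a i : ℝ) : ℂ)).Monic := fun i _ => monic_X_sub_C _
  have hgg : Set.Pairwise ((range n : Finset ℕ) : Set ℕ)
      fun i j => IsCoprime (X - C ((a i : ℝ) : ℂ)) (X - C ((a j : ℝ) : ℂ)) := by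
    intro i hi j hj hij
    have h : ((a i : ℝ) : ℂ) - ((a j : ℝ) : ℂ) ≠ 0 := by
      rw [sub_ne_zero]
      exact_mod_cast ha i (Finset.mem_coe.1 hi) j (Finset.mem_coe.1 hj) hij
    exact isCoprime_X_sub_C_of_isUnit_sub (isUnit_iff_ne_zero.2 h)
  obtain ⟨q, r, hr, hf⟩ := eq_quo_mul_prod_pow_add_sum_rem_mul_prod_pow A hg hgg m
  set c : (k : ℕ) → Fin (m k) → ℂ := fun k j => (r k j).coeff 0 with hc
  have hrc : ∀ k ∈ range n, ∀ j, r k j = C (c k j) := by
    intro k hk j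
    have h := hr k hk j
    rw [degree_X_sub_C] at h
    exact eq_C_of_degree_le_zero (Nat.WithBot.lt_one_iff_le_zero.1 h)
  set Rr : ℂ[X] := ∑ i ∈ range n, ∑ j, r i j * (X - C ((a i : ℝ) : ℂ)) ^ j.1 *
    ∏ k ∈ (range n).erase i, (X - C ((a k : ℝ) : ℂ)) ^ m k with hRr
  have hdeg : Rr.degree < (DP n a m).degree := by
    rw [degree_eq_natDegree (DP_monic n a m).ne_zero, natDegree_DP, ← mem_degreeLT]
    refine Submodule.sum_mem _ fun i hi => Submodule.sum_mem _ fun j _ => ?_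
    rw [mem_degreeLT, hrc i hi j]
    have hmon : ((X - C ((a i : ℝ) : ℂ)) ^ j.1 *
        ∏ k ∈ (range n).erase i, (X - C ((a k : ℝ) : ℂ)) ^ m k).Monic :=
      ((monic_X_sub_C _).pow _).mul (monic_prod_of_monic _ _ fun k _ => (monic_X_sub_C _).pow _)
    have hnd : ((X - C ((a i : ℝ) : ℂ)) ^ j.1 *
        ∏ k ∈ (range n).erase i, (X - C ((a k : ℝ) : ℂ)) ^ m k).natDegree
        = j.1 + ∑ k ∈ (range n).erase i, m k := by
      rw [((monic_X_sub_C _).pow _).natDegree_mul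
        (monic_prod_of_monic _ _ fun k _ => (monic_X_sub_C _).pow _),
        (monic_X_sub_C _).natDegree_pow, natDegree_X_sub_C, mul_one,
        natDegree_prod_of_monic _ _ fun k _ => (monic_X_sub_C _).pow _]
      congr 1
      refine sum_congr rfl fun k _ => ?_
      rw [(monic_X_sub_C _).natDegree_pow, natDegree_X_sub_C, mul_one]
    rw [mul_assoc, ← smul_eq_C_mul]
    refine lt_of_le_of_lt (degree_smul_le _ _) ?_
    rw [degree_eq_natDegree hmon.ne_zero, hnd, ← add_sum_erase _ _ hi]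
    exact_mod_cast Nat.add_lt_add_right j.2 _
  have hq : A /ₘ DP n a m = q := by
    refine (div_modByMonic_unique q Rr (DP_monic n a m) ⟨?_, hdeg⟩).1
    rw [hf, add_comm, mul_comm]
    rfl
  refine ⟨fun k i => if h : m k - 1 - i < m k then c k ⟨m k - 1 - i, h⟩ else 0, ?_⟩
  intro z hz
  have hz' : ∀ k ∈ range n, z - ((a k : ℝ) : ℂ) ≠ 0 := fun k hk => sub_ne_zero.2 (hz k hk)
  have hP : ∏ k ∈ range n, (z - ((a k : ℝ) : ℂ)) ^ m k ≠ 0 :=
    prod_ne_zero_iff.2 fun k hk => pow_ne_zero _ (hz' k hk)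
  unfold RF
  rw [hq, div_eq_iff hP, add_mul]
  have hev : A.eval z = q.eval z * ∏ k ∈ range n, (z - ((a k : ℝ) : ℂ)) ^ m k +
      ∑ i ∈ range n, ∑ j : Fin (m i), c i j * (z - ((a i : ℝ) : ℂ)) ^ j.1 *
        ∏ k ∈ (range n).erase i, (z - ((a k : ℝ) : ℂ)) ^ m k := by
    conv_lhs => rw [hf]
    rw [eval_add, eval_mul, eval_prod, eval_finsetSum]
    congr 1
    · congr 1
      refine prod_congr rfl fun k _ => ?_
      simp
    · refine sum_congr rfl fun i hi => ?_
      rw [eval_finsetSum]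
      refine sum_congr rfl fun j _ => ?_
      rw [hrc i hi j, eval_mul, eval_mul, eval_prod]
      simp
  rw [hev]
  congr 1
  rw [sum_mul]
  refine sum_congr rfl fun i hi => ?_
  rw [sum_mul, ← mul_prod_erase _ _ hi]
  have e1 : ∑ j : Fin (m i), c i j * (z - ((a i : ℝ) : ℂ)) ^ j.1 *
        ∏ k ∈ (range n).erase i, (z - ((a k : ℝ) : ℂ)) ^ m k
      = ∑ j ∈ range (m i), (if h : j < m i then c i ⟨j, h⟩ else 0) *
        (z - ((a i : ℝ) : ℂ)) ^ j *
        ∏ k ∈ (range n).erase i, (z - ((a k : ℝ) : ℂ)) ^ m k := by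
    rw [Finset.sum_range]
    refine sum_congr rfl fun j _ => ?_
    rw [dif_pos j.2]
  rw [e1, ← sum_range_reflect]
  refine sum_congr rfl fun j hj => ?_
  have hj' := mem_range.1 hj
  have hzi := hz' i hi
  have e2 : (z - ((a i : ℝ) : ℂ)) ^ m i =
      (z - ((a i : ℝ) : ℂ)) ^ (m i - 1 - j) * (z - ((a i : ℝ) : ℂ)) ^ (j + 1) := by
    rw [← pow_add]
    congr 1
    omega
  rw [e2]
  field_simp

end Pool.Agent.Helper7.XG
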